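import Pool.Agent.Helper68.KA2.Fin

set_option autoImplicit false

/-!
Project KA (MP_0b9e0b_ag), the L-function for cycles of dimension one: the sum of the traces in
terms of the points of `YV a c τ`.
-/

namespace Pool.Agent.Helper68.KA

open Pool.Agent.Helper1.KA
open Pool.Agent.Helper1.KL (coef)
open Pool.Agent.Helper17.KA (trX Full)

theorem card_yv {k : Type} [Field k] {p n a : ℕ} (κ : Type) [Field κ] [Algebra k κ]
    (c : Fin n → k) (τ : Fin n → Option (ZMod p)) :
    Nat.card {D : Fin n → Option κ // YV a c τ κ D} =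
      BB κ a (fun i => algebraMap k κ (c i)) τ := by
  classical
  unfold BB
  let f : {D : Fin n → Option κ // YV a c τ κ D} → {x : Fin n → κ //
      (∀ i, τ i = none → x i = 0) ∧ ∑ i, (coef τ i : κ) * x i = 0 ∧
        ∑ i, (coef τ i : κ) * algebraMap k κ (c i) * x i ^ a = 0} := fun D =>
    ⟨fun i => (D.1 i).getD 0, fun i hi => by
      change (D.1 i).getD 0 = 0
      rw [(D.2.1.1 i).1 hi]
      rfl, D.2.2, D.2.1.2⟩
  refine Nat.card_congr (Equiv.ofBijective f ⟨?_, ?_⟩)
  · rintro ⟨D, hD⟩ ⟨D', hD'⟩ h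
    simp only [f, Subtype.mk.injEq] at h
    apply Subtype.ext
    funext i
    simp only
    by_cases hi : τ i = none
    · rw [(hD.1.1 i).1 hi, (hD'.1.1 i).1 hi]
    · obtain ⟨u, hu⟩ := Option.ne_none_iff_exists'.1 fun h0 => hi ((hD.1.1 i).2 h0)
      obtain ⟨u', hu'⟩ := Option.ne_none_iff_exists'.1 fun h0 => hi ((hD'.1.1 i).2 h0)
      have h1 := congrFun h i
      simp only [hu, hu', Option.getD_some] at h1
      rw [hu, hu', h1]
  · rintro ⟨x, h0, h1, h2⟩
    set D : Fin n → Option κ := fun i => if τ i = none then none else some (x i) with hD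
    have hgd : ∀ i, (D i).getD 0 = x i := by
      intro i
      by_cases hi : τ i = none
      · have : D i = none := if_pos hi
        rw [this, h0 i hi]
        rfl
      · have : D i = some (x i) := if_neg hi
        rw [this]
        rfl
    refine ⟨⟨D, ⟨fun i => ?_, ?_⟩, ?_⟩, ?_⟩
    · by_cases hi : τ i = none
      · have : D i = none := if_pos hi
        exact ⟨fun _ => this, fun _ => hi⟩
      · have : D i = some (x i) := if_neg hi
        rw [this]
        exact ⟨fun h => absurd h hi, fun h => absurd h (Option.some_ne_none _)⟩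
    · refine Eq.trans (Finset.sum_congr rfl fun i _ => ?_) h2
      rw [hgd]
    · unfold Bfun
      refine Eq.trans (Finset.sum_congr rfl fun i _ => ?_) h1
      rw [hgd]
    · simp only [f]
      apply Subtype.ext
      funext i
      exact hgd i

/-- The sum of the traces of Frobenius, in terms of the numbers of points of `YV a c τ`. -/
theorem sum_trX_bound_z {k : Type} [Field k] {p n a : ℕ} [Fact p.Prime] [CharP k p] (ha : a ≠ 0)
    {c : Fin n → k} (hc : ∀ i, c i ≠ 0) :
    ∃ C : ℕ, ∀ (κ : Type) [Field κ] [Finite κ] [Algebra k κ]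
      (z : (Fin n → Option (ZMod p)) → ℕ),
      (∀ τ ∈ Full p n 3, Nat.card {D : Fin n → Option κ // YV a c τ κ D} =
        1 + (Nat.card κ - 1) * z τ) →
      |((∑ᶠ t : κˣ, trX κ p a (fun i => algebraMap k κ (c i)) t : ℤ) : ℝ) -
        (Nat.card κ : ℝ) ^ 2 * (-((n * (n - 1) * (p - 1) : ℕ) : ℝ) +
          ∑ τ ∈ Full p n 3, (1 - (z τ : ℝ)))| ≤ C * Real.sqrt ((Nat.card κ : ℝ) ^ 3) := by
  refine ⟨2 * a ^ 3 * (Full p n 3).card, fun κ _ _ _ z hz => ?_⟩
  have : CharP κ p := charP_of_injective_algebraMap (algebraMap k κ).injective p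
  have h1 := sum_trX_bound (p := p) (n := n) ha κ (c := fun i => algebraMap k κ (c i))
    fun i => by rw [Ne, map_eq_zero]; exact hc i
  have hQ : (1 : ℝ) < Nat.card κ := by exact_mod_cast Finite.one_lt_card
  have h2 : ∑ τ ∈ Full p n 3, (1 - ((BB κ a (fun i => algebraMap k κ (c i)) τ : ℝ) - 1) /
      ((Nat.card κ : ℝ) - 1)) = ∑ τ ∈ Full p n 3, (1 - (z τ : ℝ)) := by
    refine Finset.sum_congr rfl fun τ hτ => ?_
    have h3 := hz τ hτ
    rw [card_yv] at h3
    rw [h3]
    have h4 : ((1 + (Nat.card κ - 1) * z τ : ℕ) : ℝ) = 1 + ((Nat.card κ : ℝ) - 1) * z τ := by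
      rw [Nat.cast_add, Nat.cast_mul, Nat.cast_sub (by exact_mod_cast hQ.le), Nat.cast_one]
    rw [h4, add_sub_cancel_left, mul_div_cancel_left₀ _ (by linarith)]
  have h5 : (n : ℝ) * (n - 1) * (p - 1) = ((n * (n - 1) * (p - 1) : ℕ) : ℝ) := by
    have h6 : ((n * (n - 1) : ℕ) : ℝ) = n * ((n : ℝ) - 1) := by
      rcases Nat.eq_zero_or_pos n with h0 | h0
      · simp [h0]
      · rw [Nat.cast_mul, Nat.cast_sub h0, Nat.cast_one]
    rw [Nat.cast_mul, h6, Nat.cast_sub (Fact.out : p.Prime).one_le, Nat.cast_one]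
  have h7 : (Nat.card κ : ℝ) * Real.sqrt (Nat.card κ) = Real.sqrt ((Nat.card κ : ℝ) ^ 3) := by
    rw [show ((Nat.card κ : ℝ)) ^ 3 = (Nat.card κ : ℝ) ^ 2 * Nat.card κ by ring,
      Real.sqrt_mul (by positivity), Real.sqrt_sq (by positivity)]
  rw [h2, h5, h7] at h1
  push_cast at h1 ⊢
  exact h1

end Pool.Agent.Helper68.KA
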