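import Pool.Agent.Helper68.KA2.Sum
import Pool.Agent.Helper67.KA2.Diag

set_option autoImplicit false

/-!
Project KA (MP_0b9e0b_ag), the L-function for cycles of dimension one: the sum of the traces.
-/

namespace Pool.Agent.Helper68.KA

open Pool.Agent.Helper1.KA
open Pool.Agent.Helper17.KA (trX Full)
open Pool.Agent.Helper19.KL (exists_char)

/-- The sum of the traces of Frobenius. -/
theorem sum_trX_bound {p n a : ℕ} [Fact p.Prime] (ha : a ≠ 0) (κ : Type) [Field κ] [Finite κ]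
    [CharP κ p] {c : Fin n → κ} (hc : ∀ i, c i ≠ 0) :
    |((∑ᶠ t : κˣ, trX κ p a c t : ℤ) : ℝ) - (Nat.card κ : ℝ) ^ 2 *
      (-((n : ℝ) * (n - 1) * (p - 1)) + ∑ τ ∈ Full p n 3,
        (1 - ((BB κ a c τ : ℝ) - 1) / ((Nat.card κ : ℝ) - 1)))| ≤
      2 * (a : ℝ) ^ 3 * (Full p n 3).card * ((Nat.card κ : ℝ) * Real.sqrt (Nat.card κ)) := by
  classical
  have : Fintype κ := Fintype.ofFinite κ
  obtain ⟨ψ, hψ, -⟩ := exists_char κ p
  have h1 := sum_trX_bound' (p := p) (n := n) ha hc fun al be ga hal hbe hga =>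
    Helper67.KA2.card_diag hψ ha hal hbe hga
  rw [finsum_eq_sum_of_fintype, Nat.card_eq_fintype_card]
  refine h1.trans (le_of_eq ?_)
  ring

end Pool.Agent.Helper68.KA
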