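import Pool.Agent.Helper19.KL.M5
import Pool.Agent.Helper68.KA.L
import Pool.Agent.Helper17.KA.One
import Pool.Agent.Helper17.KA.L1Defs

set_option autoImplicit false
set_option linter.unusedSectionVars false

/-!
Project KA (MP_0b9e0b_ag), the L-function for cycles of dimension one: character sums.
-/

namespace Pool.Agent.Helper68.KA

open Pool.Agent.Helper1.KA
open Pool.Agent.Helper1.KL (coef Idx IT)
open Pool.Agent.Helper19.KL (exists_char as_count sum_units sum_char expand T3 mem_T3 coef_eq_zero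
  mem_IT coef_ne)
open Pool.Agent.Helper17.KA (trX Full coef_none coef_eq_zero_iff)

section w

variable {κ : Type} [Field κ] [Fintype κ] [DecidableEq κ] {p : ℕ} [Fact p.Prime] [CharP κ p]

/-- The character sum attached to the curve. -/
noncomputable def w (ψ : AddChar κ ℂ) (a : ℕ) (r t c : κ) : ℂ :=
  ∑ x : κ, ψ (r * (t * c * x ^ a + x))

theorem trC_eq {ψ : AddChar κ ℂ} (hψ : ψ.IsPrimitive) (hF : ∀ z : κ, ψ (z ^ p) = ψ z)
    {a : ℕ} (t c : κ) :
    (trC κ p a t c : ℂ) = -∑ ρ : ZMod p with ρ ≠ 0, w ψ a ((ρ.val : ℕ) : κ) t c := by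
  have h1 : (Nat.card {z : Option κ × Option κ // Curve p a t c z.1 z.2} : ℂ) =
      (Fintype.card κ : ℂ) + 1 + ∑ ρ : ZMod p with ρ ≠ 0, w ψ a ((ρ.val : ℕ) : κ) t c := by
    rw [card_curve]
    push_cast
    have h2 : ∀ x : κ, (∑ y : κ, if y ^ p - y = t * c * x ^ a + x then (1 : ℂ) else 0) =
        ∑ ρ : ZMod p, ψ ((ρ.val : ℕ) * (t * c * x ^ a + x)) := by
      intro x
      rw [← as_count hψ hF, Nat.card_eq_fintype_card, Fintype.card_subtype, Finset.card_filter]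
      push_cast
      rfl
    rw [Finset.sum_congr rfl fun x _ => h2 x, Finset.sum_comm,
      ← Finset.sum_filter_add_sum_filter_not Finset.univ (fun ρ : ZMod p => ρ ≠ 0)]
    have h3 : (Finset.univ.filter fun ρ : ZMod p => ¬ρ ≠ 0) = {0} := by
      ext ρ
      simp
    rw [h3, Finset.sum_singleton]
    have h4 : ∑ x : κ, ψ (((0 : ZMod p).val : ℕ) * (t * c * x ^ a + x)) =
        (Fintype.card κ : ℂ) := by
      rw [ZMod.val_zero, Nat.cast_zero]
      simp only [zero_mul, AddChar.map_zero_eq_one]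
      rw [Finset.sum_const, nsmul_eq_mul, Finset.card_univ, mul_one]
    rw [h4]
    unfold w
    ring
  unfold trC
  push_cast
  rw [h1, Nat.card_eq_fintype_card]
  ring

/-- The cubic form and the linear form. -/
def Fv (a : ℕ) (r1 r2 r3 c1 c2 c3 : κ) (v : κ × κ × κ) : κ :=
  r1 * c1 * v.1 ^ a + r2 * c2 * v.2.1 ^ a + r3 * c3 * v.2.2 ^ a

def Lv (r1 r2 r3 : κ) (v : κ × κ × κ) : κ := r1 * v.1 + r2 * v.2.1 + r3 * v.2.2

omit [CharP κ p] in
theorem sum_w_three {ψ : AddChar κ ℂ} (hψ : ψ.IsPrimitive) (a : ℕ) {r1 : κ} (r2 r3 c1 c2 c3 : κ)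
    (hr1 : r1 ≠ 0) :
    ((Fintype.card κ : ℂ) - 1) * ∑ t : κˣ, w ψ a r1 t c1 * (w ψ a r2 t c2 * w ψ a r3 t c3) =
      (Fintype.card κ : ℂ) * ((Fintype.card κ : ℂ) *
        (Nat.card {v : κ × κ × κ // Lv r1 r2 r3 v = 0 ∧ Fv a r1 r2 r3 c1 c2 c3 v = 0} : ℂ) -
          (Nat.card {v : κ × κ × κ // Fv a r1 r2 r3 c1 c2 c3 v = 0} : ℂ)) := by
  set Q : ℂ := (Fintype.card κ : ℂ) with hQ
  set F := Fv a r1 r2 r3 c1 c2 c3 with hFdef
  set L := Lv r1 r2 r3 with hLdef
  -- the sum over `t`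
  have h1 : ∀ t : κˣ, w ψ a r1 t c1 * (w ψ a r2 t c2 * w ψ a r3 t c3) =
      ∑ v : κ × κ × κ, ψ (t * F v) * ψ (L v) := by
    intro t
    unfold w
    rw [Finset.sum_mul_sum, Finset.sum_mul_sum, Fintype.sum_prod_type]
    refine Finset.sum_congr rfl fun x _ => ?_
    rw [Fintype.sum_prod_type]
    simp only [Finset.mul_sum]
    refine Finset.sum_congr rfl fun y _ => ?_
    refine Finset.sum_congr rfl fun z _ => ?_
    rw [← AddChar.map_add_eq_mul, ← AddChar.map_add_eq_mul, ← AddChar.map_add_eq_mul]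
    congr 1
    simp only [hFdef, hLdef, Fv, Lv]
    ring
  have h2 : ∑ v : κ × κ × κ, ψ (L v) = 0 := by
    rw [Fintype.sum_prod_type, Finset.sum_comm]
    refine Finset.sum_eq_zero fun y _ => ?_
    have h3 : ∀ x : κ, ψ (L (x, y)) = ψ (x * r1) * ψ (r2 * y.1 + r3 * y.2) := by
      intro x
      rw [← AddChar.map_add_eq_mul]
      congr 1
      simp only [hLdef, Lv]
      ring
    rw [Finset.sum_congr rfl fun x _ => h3 x, ← Finset.sum_mul, AddChar.sum_mulShift _ hψ,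
      if_neg hr1]
    simp
  set S : ℂ := ∑ v : κ × κ × κ, if F v = 0 then ψ (L v) else 0 with hS
  have h3 : ∑ t : κˣ, w ψ a r1 t c1 * (w ψ a r2 t c2 * w ψ a r3 t c3) = Q * S := by
    rw [Finset.sum_congr rfl fun t _ => h1 t, Finset.sum_comm]
    have h4 : ∀ v : κ × κ × κ, ∑ t : κˣ, ψ (t * F v) * ψ (L v) =
        Q * (if F v = 0 then ψ (L v) else 0) - ψ (L v) := by
      intro v
      rw [← Finset.sum_mul, sum_char hψ]
      split_ifs
      · ring
      · ring
    rw [Finset.sum_congr rfl fun v _ => h4 v, Finset.sum_sub_distrib, h2, sub_zero,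
      ← Finset.mul_sum]
  -- homogeneity
  have h4 : ∀ u : κˣ, S = ∑ v : κ × κ × κ, if F v = 0 then ψ (u * L v) else 0 := by
    intro u
    rw [hS]
    symm
    let e : κ × κ × κ ≃ κ × κ × κ :=
      { toFun := fun v => (u * v.1, u * v.2.1, u * v.2.2)
        invFun := fun v => (u⁻¹ * v.1, u⁻¹ * v.2.1, u⁻¹ * v.2.2)
        left_inv := fun v => by simp
        right_inv := fun v => by simp }
    refine Fintype.sum_equiv e _ _ fun v => ?_
    have h5 : F (e v) = (u : κ) ^ a * F v := by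
      simp only [hFdef, Fv, e, Equiv.coe_fn_mk]
      ring
    have h6 : L (e v) = u * L v := by
      simp only [hLdef, Lv, e, Equiv.coe_fn_mk]
      ring
    rw [h5, h6]
    have h7 : (u : κ) ^ a * F v = 0 ↔ F v = 0 := by
      rw [mul_eq_zero, or_iff_right (pow_ne_zero _ u.ne_zero)]
    simp only [h7]
  have hcard : (Fintype.card κˣ : ℂ) = Q - 1 := by
    rw [Fintype.card_units, Nat.cast_sub Fintype.card_pos, Nat.cast_one]
  have h5 : (Q - 1) * S = Q * (Nat.card {v : κ × κ × κ // L v = 0 ∧ F v = 0} : ℂ) -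
      (Nat.card {v : κ × κ × κ // F v = 0} : ℂ) := by
    have h6 : (Q - 1) * S = ∑ u : κˣ, S := by
      rw [Finset.sum_const, Finset.card_univ, nsmul_eq_mul, hcard]
    rw [h6, Finset.sum_congr rfl fun u _ => h4 u, Finset.sum_comm]
    have h7 : ∀ v : κ × κ × κ, (∑ u : κˣ, if F v = 0 then ψ (u * L v) else 0) =
        Q * (if L v = 0 ∧ F v = 0 then 1 else 0) - (if F v = 0 then 1 else 0) := by
      intro v
      by_cases hv : F v = 0
      · simp only [hv, if_true, and_true]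
        rw [sum_char hψ]
        split_ifs
        · ring
        · ring
      · simp only [hv, if_false, and_false]
        simp
    rw [Finset.sum_congr rfl fun v _ => h7 v, Finset.sum_sub_distrib, ← Finset.mul_sum]
    congr 1
    · congr 1
      rw [Nat.card_eq_fintype_card, Fintype.card_subtype, Finset.card_filter]
      push_cast
      rfl
    · rw [Nat.card_eq_fintype_card, Fintype.card_subtype, Finset.card_filter]
      push_cast
      rfl
  rw [h3]
  linear_combination Q * h5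

end w

section BB

variable {κ : Type} [Field κ] {p : ℕ} {n : ℕ}

/-- The number of the points `x` of the affine cone over `Y` with coordinates in `κ`. -/
noncomputable def BB (κ : Type) [Field κ] (a : ℕ) {p n : ℕ} (c : Fin n → κ)
    (τ : Fin n → Option (ZMod p)) : ℕ :=
  Nat.card {x : Fin n → κ // (∀ i, τ i = none → x i = 0) ∧ ∑ i, (coef τ i : κ) * x i = 0 ∧
    ∑ i, (coef τ i : κ) * c i * x i ^ a = 0}

theorem sum_three {E : Type} [AddCommMonoid E] {i j l : Fin n} (hij : i ≠ j) (hil : i ≠ l)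
    (hjl : j ≠ l) (f : Fin n → E) (hf : ∀ m, m ≠ i → m ≠ j → m ≠ l → f m = 0) :
    ∑ m, f m = f i + (f j + f l) := by
  rw [← Finset.sum_subset (Finset.subset_univ ({i, j, l} : Finset (Fin n))),
    Finset.sum_insert (by simp [hij, hil]), Finset.sum_pair hjl]
  intro m _ hm
  rw [Finset.mem_insert, Finset.mem_insert, Finset.mem_singleton, not_or, not_or] at hm
  exact hf m hm.1 hm.2.1 hm.2.2

theorem BB_eq {τ : Fin n → Option (ZMod p)} {i j l : Fin n} (hij : i ≠ j) (hil : i ≠ l)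
    (hjl : j ≠ l) (hI : IT τ = {i, j, l}) (a : ℕ) (c : Fin n → κ) :
    BB κ a c τ = Nat.card {v : κ × κ × κ //
      Lv (coef τ i : κ) (coef τ j) (coef τ l) v = 0 ∧
      Fv a (coef τ i : κ) (coef τ j) (coef τ l) (c i) (c j) (c l) v = 0} := by
  have hnone : ∀ m, m ≠ i → m ≠ j → m ≠ l → τ m = none := by
    intro m h1 h2 h3
    have h4 : m ∉ IT τ := by
      rw [hI]
      simp [h1, h2, h3]
    rwa [mem_IT, not_not] at h4
  have hsome : ∀ m, τ m = none → m ≠ i ∧ m ≠ j ∧ m ≠ l := by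
    intro m hm
    have h4 : m ∉ IT τ := by
      rw [mem_IT, not_not]
      exact hm
    rw [hI] at h4
    simpa using h4
  have hcoef : ∀ m, m ≠ i → m ≠ j → m ≠ l → coef τ m = 0 := fun m h1 h2 h3 =>
    coef_none (hnone m h1 h2 h3)
  unfold BB
  let f : {x : Fin n → κ // (∀ i, τ i = none → x i = 0) ∧ ∑ i, (coef τ i : κ) * x i = 0 ∧
      ∑ i, (coef τ i : κ) * c i * x i ^ a = 0} → {v : κ × κ × κ //
      Lv (coef τ i : κ) (coef τ j) (coef τ l) v = 0 ∧
      Fv a (coef τ i : κ) (coef τ j) (coef τ l) (c i) (c j) (c l) v = 0} := fun x =>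
    ⟨(x.1 i, x.1 j, x.1 l), by
      obtain ⟨x, h1, h2, h3⟩ := x
      rw [sum_three hij hil hjl _ fun m a1 a2 a3 => by rw [hcoef m a1 a2 a3]; simp] at h2 h3
      refine ⟨?_, ?_⟩
      · change (coef τ i : κ) * x i + coef τ j * x j + coef τ l * x l = 0
        linear_combination h2
      · change (coef τ i : κ) * c i * x i ^ a + coef τ j * c j * x j ^ a +
          coef τ l * c l * x l ^ a = 0
        linear_combination h3⟩
  refine Nat.card_congr (Equiv.ofBijective f ⟨?_, ?_⟩)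
  · rintro ⟨x, h1, h2, h3⟩ ⟨x', h1', h2', h3'⟩ h
    simp only [f, Subtype.mk.injEq, Prod.mk.injEq] at h
    apply Subtype.ext
    funext m
    simp only
    by_cases a1 : m = i
    · rw [a1]; exact h.1
    by_cases a2 : m = j
    · rw [a2]; exact h.2.1
    by_cases a3 : m = l
    · rw [a3]; exact h.2.2
    rw [h1 m (hnone m a1 a2 a3), h1' m (hnone m a1 a2 a3)]
  · rintro ⟨v, h1, h2⟩
    set x : Fin n → κ := fun m => if m = i then v.1 else if m = j then v.2.1 else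
      if m = l then v.2.2 else 0 with hx
    have hxi : x i = v.1 := if_pos rfl
    have hxj : x j = v.2.1 := by
      rw [hx]
      simp only
      rw [if_neg hij.symm, if_pos trivial]
    have hxl : x l = v.2.2 := by
      rw [hx]
      simp only
      rw [if_neg hil.symm, if_neg hjl.symm, if_pos trivial]
    refine ⟨⟨x, fun m hm => ?_, ?_, ?_⟩, ?_⟩
    · obtain ⟨a1, a2, a3⟩ := hsome m hm
      rw [hx]
      simp only
      rw [if_neg a1, if_neg a2, if_neg a3]
    · rw [sum_three hij hil hjl _ fun m a1 a2 a3 => by rw [hcoef m a1 a2 a3]; simp, hxi, hxj, hxl,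
        ← h1]
      unfold Lv
      ring
    · rw [sum_three hij hil hjl _ fun m a1 a2 a3 => by rw [hcoef m a1 a2 a3]; simp, hxi, hxj, hxl,
        ← h2]
      unfold Fv
      ring
    · simp only [f]
      apply Subtype.ext
      simp only [hxi, hxj, hxl]

end BB

section final

variable {κ : Type} [Field κ] [Fintype κ] [DecidableEq κ] {p : ℕ} [Fact p.Prime] [CharP κ p]
  {n : ℕ}

theorem full_eq : Full p n 3 = T3 p n := by
  classical
  ext τ
  rw [mem_T3]
  unfold Full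
  rw [Finset.mem_filter, and_iff_right (Finset.mem_univ _), and_comm]
  refine and_congr_right fun _ => ?_
  constructor
  · intro h i hi h0
    exact h i ((coef_eq_zero_iff (mem_IT.1 hi)).1 h0)
  · intro h i hi
    have h1 : τ i ≠ none := by rw [hi]; exact Option.some_ne_none _
    exact h i (mem_IT.2 h1) ((coef_eq_zero_iff h1).2 hi)

/-- The contribution of an index with three nonzero coefficients. -/
theorem sum_tau {ψ : AddChar κ ℂ} (hψ : ψ.IsPrimitive) (a : ℕ) {c : Fin n → κ}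
    (hc : ∀ i, c i ≠ 0)
    {K : ℝ} (hdiag : ∀ al be ga : κ, al ≠ 0 → be ≠ 0 → ga ≠ 0 →
      |(Nat.card {x : κ × κ × κ // al * x.1 ^ a + be * x.2.1 ^ a + ga * x.2.2 ^ a = 0} : ℝ) -
        (Fintype.card κ : ℝ) ^ 2| ≤ K)
    {τ : Fin n → Option (ZMod p)} (hτ : τ ∈ T3 p n) :
    ∃ E : ℝ, |E| ≤ 2 * K ∧ ∑ t : κˣ, ∏ i ∈ IT τ, w ψ a (coef τ i : κ) t (c i) =
      ((-((Fintype.card κ : ℝ) ^ 2 * (1 - ((BB κ a c τ : ℝ) - 1) / ((Fintype.card κ : ℝ) - 1)) + E)
        : ℝ) : ℂ) := by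
  obtain ⟨h3, hall⟩ := mem_T3.1 hτ
  obtain ⟨i, j, l, hij, hil, hjl, hI⟩ := Finset.card_eq_three.1 h3
  have hne : ∀ m, m ∈ IT τ → (coef τ m : κ) ≠ 0 := by
    intro m hm
    rw [Ne, CharP.cast_eq_zero_iff κ p]
    intro h5
    exact hall m hm (Nat.eq_zero_of_dvd_of_lt h5 (ZMod.val_lt _))
  have hi : (coef τ i : κ) ≠ 0 := hne i (by rw [hI]; simp)
  have hj : (coef τ j : κ) ≠ 0 := hne j (by rw [hI]; simp)
  have hl : (coef τ l : κ) ≠ 0 := hne l (by rw [hI]; simp)
  have hQ : (1 : ℝ) < Fintype.card κ := by exact_mod_cast Fintype.one_lt_card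
  have hQ2 : (2 : ℝ) ≤ Fintype.card κ := by
    exact_mod_cast (Fintype.one_lt_card : 1 < Fintype.card κ)
  set Q : ℝ := (Fintype.card κ : ℝ) with hQdef
  set A : ℝ := (Nat.card {v : κ × κ × κ // Fv a (coef τ i : κ) (coef τ j) (coef τ l) (c i) (c j)
    (c l) v = 0} : ℝ) with hA
  have hAb : |A - Q ^ 2| ≤ K := hdiag _ _ _ (mul_ne_zero hi (hc i)) (mul_ne_zero hj (hc j))
    (mul_ne_zero hl (hc l))
  have hsum := sum_w_three hψ a (coef τ j : κ) (coef τ l : κ) (c i) (c j) (c l) hi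
  rw [← BB_eq hij hil hjl hI a c] at hsum
  refine ⟨Q * (A - Q ^ 2) / (Q - 1), ?_, ?_⟩
  · rw [abs_div, abs_mul, abs_of_pos (by linarith : (0 : ℝ) < Q),
      abs_of_pos (by linarith : (0 : ℝ) < Q - 1), div_le_iff₀ (by linarith)]
    have h0 : 0 ≤ |A - Q ^ 2| := abs_nonneg _
    nlinarith
  · have hprod : ∀ t : κˣ, ∏ m ∈ IT τ, w ψ a (coef τ m : κ) t (c m) =
        w ψ a (coef τ i : κ) t (c i) * (w ψ a (coef τ j : κ) t (c j) *
          w ψ a (coef τ l : κ) t (c l)) := by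
      intro t
      rw [hI, Finset.prod_insert (by simp [hij, hil]), Finset.prod_pair hjl]
    rw [Finset.sum_congr rfl fun t _ => hprod t]
    have hQ1 : ((Q - 1 : ℝ) : ℂ) ≠ 0 := by
      rw [Ne, Complex.ofReal_eq_zero]
      linarith
    apply mul_left_cancel₀ hQ1
    have h1 : ((Q - 1 : ℝ) : ℂ) = (Fintype.card κ : ℂ) - 1 := by
      rw [hQdef]
      push_cast
      rfl
    rw [h1, hsum, ← h1]
    have h2 : (Fintype.card κ : ℂ) = ((Q : ℝ) : ℂ) := by
      rw [hQdef]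
      push_cast
      rfl
    have h3 : (Nat.card {v : κ × κ × κ // Fv a (coef τ i : κ) (coef τ j) (coef τ l) (c i) (c j)
        (c l) v = 0} : ℂ) = ((A : ℝ) : ℂ) := by
      rw [hA]
      push_cast
      rfl
    rw [h2, h3]
    rw [← Complex.ofReal_natCast (BB κ a c τ), ← Complex.ofReal_mul, ← Complex.ofReal_sub,
      ← Complex.ofReal_mul, ← Complex.ofReal_mul, Complex.ofReal_inj]
    have h4 : Q - 1 ≠ 0 := by linarith
    field_simp
    ring

/-- The sum of the traces of Frobenius. -/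
theorem sum_trX_bound' {a : ℕ} (ha : a ≠ 0) {c : Fin n → κ} (hc : ∀ i, c i ≠ 0)
    {K : ℝ} (hdiag : ∀ al be ga : κ, al ≠ 0 → be ≠ 0 → ga ≠ 0 →
      |(Nat.card {x : κ × κ × κ // al * x.1 ^ a + be * x.2.1 ^ a + ga * x.2.2 ^ a = 0} : ℝ) -
        (Fintype.card κ : ℝ) ^ 2| ≤ K) :
    |((∑ t : κˣ, trX κ p a c t : ℤ) : ℝ) - (Fintype.card κ : ℝ) ^ 2 *
      (-((n : ℝ) * (n - 1) * (p - 1)) + ∑ τ ∈ Full p n 3,
        (1 - ((BB κ a c τ : ℝ) - 1) / ((Fintype.card κ : ℝ) - 1)))| ≤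
      2 * K * (Full p n 3).card := by
  obtain ⟨ψ, hψ, hF⟩ := exists_char κ p
  set Q : ℝ := (Fintype.card κ : ℝ) with hQ
  have hex : ∀ τ : Fin n → Option (ZMod p), ∃ E : ℝ, τ ∈ T3 p n → |E| ≤ 2 * K ∧
      ∑ t : κˣ, ∏ i ∈ IT τ, w ψ a (coef τ i : κ) t (c i) =
        ((-(Q ^ 2 * (1 - ((BB κ a c τ : ℝ) - 1) / (Q - 1)) + E) : ℝ) : ℂ) := by
    intro τ
    by_cases hτ : τ ∈ T3 p n
    · obtain ⟨E, hE⟩ := sum_tau hψ a hc hdiag hτ
      exact ⟨E, fun _ => hE⟩
    · exact ⟨0, fun h => absurd h hτ⟩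
  choose E hE using hex
  have h1 : ∀ t : κˣ, (trX κ p a c t : ℂ) =
      (-∑ τ ∈ T3 p n, ∏ i ∈ IT τ, w ψ a (coef τ i : κ) t (c i)) +
        ((n : ℂ) - 1) * Fintype.card κ * ∑ i, (trC κ p a t (c i) : ℂ) := by
    intro t
    unfold trX
    push_cast
    rw [Nat.card_eq_fintype_card]
    congr 1
    simp only [trC_eq hψ hF]
    have h2 : ∀ s ∈ Finset.powersetCard 3 (Finset.univ : Finset (Fin n)),
        ∏ i ∈ s, -∑ ρ : ZMod p with ρ ≠ 0, w ψ a ((ρ.val : ℕ) : κ) t (c i) =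
        -∏ i ∈ s, ∑ ρ : ZMod p with ρ ≠ 0, w ψ a ((ρ.val : ℕ) : κ) t (c i) := by
      intro s hs
      rw [Finset.mem_powersetCard] at hs
      rw [Finset.prod_neg, hs.2]
      ring
    rw [Finset.sum_congr rfl h2, Finset.sum_neg_distrib,
      expand fun i ρ => w ψ a ((ρ.val : ℕ) : κ) t (c i)]
    rfl
  have h2 : ((∑ t : κˣ, trX κ p a c t : ℤ) : ℂ) =
      (((∑ τ ∈ T3 p n, (Q ^ 2 * (1 - ((BB κ a c τ : ℝ) - 1) / (Q - 1)) + E τ)) +
        (n - 1) * Q * (n * (-((p : ℝ) - 1) * Q)) : ℝ) : ℂ) := by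
    push_cast
    rw [Finset.sum_congr rfl fun t _ => h1 t, Finset.sum_add_distrib, Finset.sum_neg_distrib,
      Finset.sum_comm, ← Finset.mul_sum, Finset.sum_comm (s := (Finset.univ : Finset κˣ)),
      Finset.sum_congr rfl fun τ hτ => (hE τ hτ).2]
    have h3 : ∀ i, ∑ t : κˣ, (trC κ p a t (c i) : ℂ) = -((p : ℂ) - 1) * Fintype.card κ := by
      intro i
      have h4 := congrArg (fun m : ℤ => (m : ℂ)) (sum_trC (p := p) ha (hc i))
      push_cast at h4
      rw [← h4]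
      refine Finset.sum_congr ?_ fun _ _ => rfl
      ext u
      simp
    rw [Finset.sum_congr rfl fun i _ => h3 i, Finset.sum_const, Finset.card_univ, Fintype.card_fin,
      nsmul_eq_mul]
    push_cast
    rw [hQ, Finset.sum_neg_distrib]
    push_cast
    ring
  have h3 : ((∑ t : κˣ, trX κ p a c t : ℤ) : ℝ) =
      (∑ τ ∈ T3 p n, (Q ^ 2 * (1 - ((BB κ a c τ : ℝ) - 1) / (Q - 1)) + E τ)) +
        (n - 1) * Q * (n * (-((p : ℝ) - 1) * Q)) := by
    exact_mod_cast h2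
  rw [h3, full_eq, Finset.sum_add_distrib, ← Finset.mul_sum]
  have h4 : Q ^ 2 * ∑ τ ∈ T3 p n, (1 - ((BB κ a c τ : ℝ) - 1) / (Q - 1)) + ∑ τ ∈ T3 p n, E τ +
      (n - 1) * Q * (n * (-((p : ℝ) - 1) * Q)) -
      Q ^ 2 * (-((n : ℝ) * (n - 1) * (p - 1)) +
        ∑ τ ∈ T3 p n, (1 - ((BB κ a c τ : ℝ) - 1) / (Q - 1))) = ∑ τ ∈ T3 p n, E τ := by
    ring
  rw [h4]
  refine (Finset.abs_sum_le_sum_abs _ _).trans ?_
  refine (Finset.sum_le_sum fun τ hτ => (hE τ hτ).1).trans ?_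
  rw [Finset.sum_const, nsmul_eq_mul, mul_comm]

end final

end Pool.Agent.Helper68.KA
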