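import Pool.Agent.Helper17.KA.One
import Pool.Agent.Helper17.KA.L1Defs
import Pool.Agent.Helper68.KA.Beta

set_option autoImplicit false
set_option linter.unusedSectionVars false

/-!
Project KA (MP_0b9e0b_ag), cycles of dimension `1`: the lines for indices with two finite
coordinates.
-/

namespace Pool.Agent.Helper68.KA

open Pool.Agent.Helper16
open Pool.Agent.Helper1.KL (Var VarF Key key fld spec cyc relations rat CH coef Idx IT)
open Pool.Agent.Helper1.KA
open Pool.Agent.Helper17.KA
open Pool.Agent.Helper19.KL (coef_ne mem_IT)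

section two

variable {k : Type} [Field k] {p a : ℕ} [Fact p.Prime] [CharP k p] {n : ℕ} {c : Fin n → k}
  {τ : Fin n → Option (ZMod p)}

theorem sum_pair' {E : Type} [AddCommMonoid E] {i j : Fin n} (hij : i ≠ j)
    (f : Fin n → E) (hf : ∀ m, m ≠ i → m ≠ j → f m = 0) :
    ∑ m, f m = f i + f j := by
  rw [← Finset.sum_subset (Finset.subset_univ ({i, j} : Finset (Fin n))), Finset.sum_pair hij]
  intro m _ hm
  rw [Finset.mem_insert, Finset.mem_singleton, not_or] at hm
  exact hf m hm.1 hm.2

/-- The condition on the coefficients, if there is a line. -/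
theorem cond_two (ha : a ≠ 0) {i j : Fin n} (hij : i ≠ j) (hi : coef τ i ≠ 0)
    (hj : coef τ j ≠ 0) (h : ∀ o, o ≠ i → o ≠ j → τ o = none) (hne : (KK a c τ).Nonempty) :
    c i = (((-(τ i).getD 0 * ((τ j).getD 0)⁻¹ : ZMod p).val : ℕ) : k) ^ (a - 1) * c j := by
  obtain ⟨Q, N, _, _, x, hx, hr, rfl⟩ := hne
  have hN : CharP N p := charP_of_injective_algebraMap (algebraMap k N).injective p
  have hι : ∀ ρ : ZMod p, ((ρ.val : ℕ) : N) = ZMod.castHom (dvd_refl p) N ρ := by
    intro ρ
    rw [ZMod.castHom_apply, ZMod.natCast_val]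
  set X := (x i).getD 0 with hX
  set Y := (x j).getD 0 with hY
  set ri : N := (coef τ i : N) with hri
  set rj : N := (coef τ j : N) with hrj
  have hi0 : ri ≠ 0 := coef_cast_ne k N hi
  have hj0 : rj ≠ 0 := coef_cast_ne k N hj
  have h1 : ri * X + rj * Y = 0 := by
    have h2 := hx.2
    unfold Bfun at h2
    rw [sum_pair' hij _ fun m a1 a2 => by rw [coef_none (h m a1 a2)]; simp] at h2
    exact h2
  have h2 : ri * algebraMap k N (c i) * X ^ a + rj * algebraMap k N (c j) * Y ^ a = 0 := by
    have h2 := hx.1.2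
    rw [sum_pair' hij _ fun m a1 a2 => by rw [coef_none (h m a1 a2)]; simp] at h2
    exact h2
  have hX0 : X ≠ 0 := by
    intro h0
    have hY0 : Y = 0 := by
      rw [h0, mul_zero, zero_add] at h1
      exact (mul_eq_zero.1 h1).resolve_left hj0
    have h3 := trdeg_zero_of (k := k) (x := x) fun m => by
      by_cases a1 : m = i
      · rw [a1, ← hX, h0]
        exact isAlgebraic_zero
      by_cases a2 : m = j
      · rw [a2, ← hY, hY0]
        exact isAlgebraic_zero
      rw [(hx.1.1 m).1 (h m a1 a2)]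
      exact isAlgebraic_zero
    rw [h3] at hr
    simp at hr
  set L : N := -ri / rj with hL
  have hY1 : Y = L * X := by
    rw [hL]
    field_simp
    linear_combination h1
  have hrL : rj * L = -ri := by
    rw [hL]
    field_simp
  have h3 : algebraMap k N (c i) = L ^ (a - 1) * algebraMap k N (c j) := by
    have h4 : L ^ a = L ^ (a - 1) * L := by
      rw [← pow_succ, Nat.sub_add_cancel (Nat.one_le_iff_ne_zero.2 ha)]
    rw [hY1, mul_pow] at h2
    have h5 : (ri * (algebraMap k N (c i) - L ^ (a - 1) * algebraMap k N (c j))) * X ^ a = 0 := by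
      rw [h4] at h2
      linear_combination h2 - (algebraMap k N (c j)) * L ^ (a - 1) * X ^ a * hrL
    have h6 := (mul_eq_zero.1 h5).resolve_right (pow_ne_zero _ hX0)
    have h7 := (mul_eq_zero.1 h6).resolve_left hi0
    rwa [sub_eq_zero] at h7
  apply (algebraMap k N).injective
  rw [h3, map_mul, map_pow, map_natCast, hι, map_mul, map_neg, map_inv₀]
  congr 2
  rw [hL, div_eq_mul_inv]
  have h8 : ri = ZMod.castHom (dvd_refl p) N ((τ i).getD 0) := hι _
  have h9 : rj = ZMod.castHom (dvd_refl p) N ((τ j).getD 0) := hι _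
  rw [h8, h9]

/-- The number of the lines for the indices with two finite coordinates. -/
theorem sum_two [NeZero p] (ha : 2 ≤ a) :
    ∑ τ ∈ Full p n 2, Nat.card (KK a c τ) ≤ (p - 1) * isoN p a c := by
  classical
  have ha0 : a ≠ 0 := by omega
  -- the two finite coordinates
  have hpair : ∀ τ ∈ Full p n 2, ∃ i j : Fin n, i < j ∧ coef τ i ≠ 0 ∧ coef τ j ≠ 0 ∧
      ∀ o, o ≠ i → o ≠ j → τ o = none := by
    intro τ hτ
    unfold Full at hτ
    rw [Finset.mem_filter] at hτ
    obtain ⟨-, hfull, hcard⟩ := hτ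
    obtain ⟨i, j, hij, hI⟩ := Finset.card_eq_two.1 hcard
    have hall : ∀ m ∈ IT τ, coef τ m ≠ 0 := by
      intro m hm h0
      exact hfull m ((coef_eq_zero_iff (mem_IT.1 hm)).1 h0)
    have hi : coef τ i ≠ 0 := hall i (by rw [hI]; simp)
    have hj : coef τ j ≠ 0 := hall j (by rw [hI]; simp)
    have ho : ∀ o, o ≠ i → o ≠ j → τ o = none := by
      intro o h1 h2
      have h3 : o ∉ IT τ := by
        rw [hI]
        simp [h1, h2]
      rwa [mem_IT, not_not] at h3
    rcases lt_or_gt_of_ne hij with h | h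
    · exact ⟨i, j, h, hi, hj, ho⟩
    · exact ⟨j, i, h, hj, hi, fun o h1 h2 => ho o h2 h1⟩
  -- at most one line
  have hone : ∀ τ ∈ Full p n 2, Nat.card (KK a c τ) ≤ if (KK a c τ).Nonempty then 1 else 0 := by
    intro τ hτ
    obtain ⟨i, j, hij, hi, hj, ho⟩ := hpair τ hτ
    split_ifs with h
    · have hsub : Subsingleton (KK a c τ) := by
        refine ⟨?_⟩
        rintro ⟨_, N, _, _, x, hx, hr, rfl⟩ ⟨_, N', _, _, x', hx', hr', rfl⟩
        exact Subtype.ext (key_two hij.ne hi hj ho hx hr hx' hr')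
      exact Finite.card_le_one_iff_subsingleton.2 hsub
    · rw [Set.not_nonempty_iff_eq_empty] at h
      rw [h]
      simp
  refine (Finset.sum_le_sum hone).trans ?_
  rw [← Finset.card_filter]
  set D := {x : Fin n × Fin n × (ZMod p)ˣ //
    x.1 < x.2.1 ∧ c x.1 = (((x.2.2 : ZMod p).val : ℕ) : k) ^ (a - 1) * c x.2.1} with hD
  have hfin : Fintype D := Fintype.ofFinite D
  let f : D × (ZMod p)ˣ → (Fin n → Option (ZMod p)) := fun y m =>
    if m = y.1.1.2.1 then some (y.2 : ZMod p) else
      if m = y.1.1.1 then some (-((y.1.1.2.2 : ZMod p) * (y.2 : ZMod p))) else none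
  have hsub : ((Full p n 2).filter fun τ => (KK a c τ).Nonempty) ⊆ Finset.univ.image f := by
    intro τ hτ
    rw [Finset.mem_filter] at hτ
    obtain ⟨hτ, hne⟩ := hτ
    obtain ⟨i, j, hij, hi, hj, ho⟩ := hpair τ hτ
    have hcond := cond_two (a := a) (c := c) ha0 hij.ne hi hj ho hne
    have hnz : ∀ {m : Fin n}, coef τ m ≠ 0 → (τ m).getD 0 ≠ 0 := by
      intro m h h0
      apply h
      unfold coef
      rw [h0, ZMod.val_zero]
    have hsome : ∀ {m : Fin n}, coef τ m ≠ 0 → τ m = some ((τ m).getD 0) := by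
      intro m hm
      have h1 := coef_ne hm
      cases h2 : τ m with
      | none => exact absurd h2 h1
      | some u => rfl
    rw [Finset.mem_image]
    refine ⟨(⟨(i, j, Units.mk0 (-(τ i).getD 0 * ((τ j).getD 0)⁻¹)
      (mul_ne_zero (neg_ne_zero.2 (hnz hi)) (inv_ne_zero (hnz hj)))), hij, hcond⟩,
      Units.mk0 ((τ j).getD 0) (hnz hj)), Finset.mem_univ _, ?_⟩
    funext m
    simp only [f, Units.val_mk0]
    by_cases hmj : m = j
    · rw [if_pos hmj, hmj]
      exact (hsome hj).symm
    · rw [if_neg hmj]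
      by_cases hmi : m = i
      · rw [if_pos hmi, hmi, inv_mul_cancel_right₀ (hnz hj), neg_neg]
        exact (hsome hi).symm
      · rw [if_neg hmi]
        exact (ho m hmi hmj).symm
  refine (Finset.card_le_card hsub).trans (Finset.card_image_le.trans (le_of_eq ?_))
  rw [Finset.card_univ, Fintype.card_prod, ZMod.card_units, mul_comm]
  congr 1
  unfold isoN
  rw [← hD, Nat.card_eq_fintype_card]

end two

end Pool.Agent.Helper68.KA
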